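import Pool.Agent.Helper3.FC.Goals

/-!
# Project FC, packet FC-F7: the free groups
-/

set_option autoImplicit false

namespace Pool.Agent.Helper64.FC.F7

open scoped Classical BigOperators
open Pool.Agent.Helper3.FC

theorem exp_neg_two_log : Real.exp (-(2 * Real.log 2)) = 1 / 4 := by
  rw [Real.exp_neg, two_mul, Real.exp_add, Real.exp_log (by norm_num)]
  norm_num

theorem core {m n w kz L : ℕ} {η : ℝ} (W : World m n w kz L η) (Λ : ℝ) (h0 : 0 < Λ)
    (hΛ : Λ < 1 / 100000) (hn : 1 ≤ n) (hw : 1 ≤ w)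
    (h1 : 2 * Real.log 2 ≤ w * Λ + 1 / 100000) (h2 : w * Λ ≤ 2 * Real.log 2 + 1 / 100000)
    (ha : ∀ l k, 0 ≤ W.a l k ∧ W.a l k ≤ Λ * (1 + 1 / 10000)) :
    (∀ l, 1 / 4 * (1 - 1 / 1000) ≤ W.f l ∧ W.f l ≤ 1) ∧
      W.fbar ≤ 1 + 1 / 1000 - 3 / 4 * (W.A / Λ) := by
  have hf : ∀ l, W.f l = ∏ k, (1 - W.a l k) := fun l => W.F_mass l
  have hl2 : Real.log 2 < 0.6931471808 := Real.log_two_lt_d9
  have hl1 : 0.6931471803 < Real.log 2 := Real.log_two_gt_d9
  have hfac : ∀ l k, 0 ≤ 1 - W.a l k ∧ 1 - W.a l k ≤ 1 := by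
    intro l k
    obtain ⟨q1, q2⟩ := ha l k
    constructor <;> nlinarith
  have hw' : (1 : ℝ) ≤ w := by exact_mod_cast hw
  have hn' : (1 : ℝ) ≤ n := by exact_mod_cast hn
  have hwΛ : 0 < (w : ℝ) * Λ := by positivity
  refine ⟨fun l => ⟨?_, ?_⟩, ?_⟩
  · -- lower bound
    have hk : ∀ k : Fin w, Real.exp (-((1 + 2 / 10000) * Λ)) ≤ 1 - W.a l k := by
      intro k
      obtain ⟨q1, q2⟩ := ha l k
      have e1 := Real.add_one_le_exp ((1 + 2 / 10000) * Λ)
      have e2 : 0 < (1 + 2 / 10000) * Λ + 1 := by positivity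
      rw [Real.exp_neg]
      have e3 : (Real.exp ((1 + 2 / 10000) * Λ))⁻¹ ≤ ((1 + 2 / 10000) * Λ + 1)⁻¹ :=
        inv_anti₀ e2 e1
      refine e3.trans ?_
      rw [inv_le_iff_one_le_mul₀ e2]
      nlinarith [mul_pos h0 h0, mul_le_mul_of_nonneg_right q2 h0.le]
    have hprod : ∏ _k : Fin w, Real.exp (-((1 + 2 / 10000) * Λ)) ≤ ∏ k, (1 - W.a l k) :=
      Finset.prod_le_prod (fun _ _ => (Real.exp_pos _).le) (fun k _ => hk k)
    rw [Finset.prod_const, Finset.card_univ, Fintype.card_fin, ← Real.exp_nat_mul] at hprod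
    rw [hf l]
    refine le_trans ?_ hprod
    have e5 : -(2 * Real.log 2) + -(4 / 10000 : ℝ) ≤ (w : ℝ) * -((1 + 2 / 10000) * Λ) := by
      nlinarith
    refine le_trans ?_ (Real.exp_le_exp.2 e5)
    rw [Real.exp_add, exp_neg_two_log]
    have e6 := Real.add_one_le_exp (-(4 / 10000 : ℝ))
    nlinarith
  · rw [hf l]
    exact Finset.prod_le_one (fun k _ => (hfac l k).1) (fun k _ => (hfac l k).2)
  · -- the average
    have hS : ∀ l, W.f l ≤ 1 + 1 / 1000 - 3 / 4 * ((∑ k, W.a l k) / (w * Λ)) := by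
      intro l
      have e1 : W.f l ≤ Real.exp (-∑ k, W.a l k) := by
        rw [hf l, ← Finset.sum_neg_distrib, Real.exp_sum]
        refine Finset.prod_le_prod (fun k _ => (hfac l k).1) (fun k _ => ?_)
        have := Real.add_one_le_exp (-W.a l k)
        linarith
      set S : ℝ := ∑ k, W.a l k with hSdef
      have hS0 : 0 ≤ S := Finset.sum_nonneg fun k _ => (ha l k).1
      have hS1 : S ≤ w * Λ * (1 + 1 / 10000) := by
        have : S ≤ ∑ _k : Fin w, Λ * (1 + 1 / 10000) := Finset.sum_le_sum fun k _ => (ha l k).2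
        rw [Finset.sum_const, Finset.card_univ, Fintype.card_fin, nsmul_eq_mul] at this
        linarith
      set c : ℝ := w * Λ with hc
      obtain ⟨s, hs⟩ : ∃ s : ℝ, s = S / c := ⟨_, rfl⟩
      have hs0 : 0 ≤ s := by rw [hs]; positivity
      have hs1 : s ≤ 1 + 1 / 10000 := by
        rw [hs, div_le_iff₀ hwΛ]; linarith
      have hSs : S = c * s := by rw [hs]; field_simp
      have k1 : (0 : ℝ) ≤ 1 - s / (1 + 1 / 10000) := by
        rw [sub_nonneg, div_le_one (by norm_num)]; exact hs1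
      have k2 : (0 : ℝ) ≤ s / (1 + 1 / 10000) := by positivity
      have k3 : 1 - s / (1 + 1 / 10000) + s / (1 + 1 / 10000) = 1 := by ring
      have hconv := convexOn_exp.2 (Set.mem_univ (0 : ℝ))
        (Set.mem_univ (-(c * (1 + 1 / 10000)))) k1 k2 k3
      simp only [smul_eq_mul, mul_zero, zero_add, Real.exp_zero, mul_one] at hconv
      have e2 : s / (1 + 1 / 10000) * -(c * (1 + 1 / 10000)) = -S := by
        rw [hSs]; field_simp
      rw [e2] at hconv
      have e3 : Real.exp (-(c * (1 + 1 / 10000))) ≤ 1 / 4 * (1 + 1 / 1000) := by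
        have e4 : -(c * (1 + 1 / 10000)) ≤ -(2 * Real.log 2) + 1 / 100000 := by
          nlinarith
        refine (Real.exp_le_exp.2 e4).trans ?_
        rw [Real.exp_add, exp_neg_two_log]
        have e5 : Real.exp (1 / 100000) ≤ 1 + 1 / 1000 := by
          have e6 := Real.add_one_le_exp (-(1 / 100000) : ℝ)
          have e7 : Real.exp (1 / 100000) = (Real.exp (-(1 / 100000)))⁻¹ := by
            rw [Real.exp_neg, inv_inv]
          rw [e7]
          have e8 : (Real.exp (-(1 / 100000)))⁻¹ ≤ (-(1 / 100000) + 1 : ℝ)⁻¹ :=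
            inv_anti₀ (by norm_num) e6
          refine e8.trans ?_
          norm_num
        linarith
      have e9 : s / (1 + 1 / 10000) * Real.exp (-(c * (1 + 1 / 10000))) ≤
          s / (1 + 1 / 10000) * (1 / 4 * (1 + 1 / 1000)) :=
        mul_le_mul_of_nonneg_left e3 (by positivity)
      have e10 : s / (1 + 1 / 10000) = s * (10000 / 10001) := by ring
      rw [← hs]
      rw [e10] at hconv e9
      linarith
    have hfb : W.fbar = (∑ l, W.f l) / n := rfl
    have hA : W.A = (∑ l, ∑ k, W.a l k) / (n * w) := rfl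
    have hsum : ∑ l, W.f l ≤ ∑ l, (1 + 1 / 1000 - 3 / 4 * ((∑ k, W.a l k) / (w * Λ))) :=
      Finset.sum_le_sum fun l _ => hS l
    rw [Finset.sum_sub_distrib, Finset.sum_const, Finset.card_univ, Fintype.card_fin,
      nsmul_eq_mul, ← Finset.mul_sum, ← Finset.sum_div] at hsum
    rw [hfb, hA, div_le_iff₀ (by linarith)]
    refine hsum.trans (le_of_eq ?_)
    have hn0 : (n : ℝ) ≠ 0 := by positivity
    have hw0 : (w : ℝ) ≠ 0 := by positivity
    field_simp

theorem t (h1 : F1) (hp : PARStmt) : F7 := by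
  obtain ⟨m₁, h1⟩ := h1
  obtain ⟨m₂, h2⟩ := hp (1 / 100000) (by norm_num)
  refine ⟨max m₁ m₂, fun m hm => ?_⟩
  obtain ⟨L₀, h3⟩ := h1 m (le_trans (le_max_left _ _) hm)
  obtain ⟨a1, a2, a3, a4, a5, a6, a7, a8, a9, -⟩ := h2 m (le_trans (le_max_right _ _) hm)
  refine ⟨L₀, fun L hL W => ?_⟩
  exact core W (Lam m) a4 a5 a1 a2 a8 a9 (h3 L hL W)

end Pool.Agent.Helper64.FC.F7
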